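import Pool.Agent.Helper43.SphD

namespace Pool.Agent.Results.MP_1b21e4_co.NotOnlyK

open Pool.Helper43.Sph

/-- For every `k ≥ 5` there is a sphere in `S(k-1, 2k-1)` with `g_k = 1` which is not isomorphic to
`K(i, 2k-1)` for any `i` with `2k/3 ≤ i < k`; namely the join of the boundaries of the simplices of
dimensions `k-1`, `k-2` and `3`. -/
theorem result (k : ℕ) (hk : 5 ≤ k) :
    ∃ (V : Type) (_ : Fintype V) (_ : DecidableEq V) (Δ : Set (Finset V)),
      InS Δ (k - 1) (2 * k) ∧ gNumber Δ (2 * k) k = 1 ∧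
      ∀ i : ℕ, 2 * k ≤ 3 * i → i < k → ¬ Isomorphic Δ (K i (2 * k)) :=
  ⟨Σ j : Fin 3, Fin (dims k j + 1), inferInstance, inferInstance, JJ (dims k), inS_dims hk,
    g_dims hk, not_iso hk⟩

end Pool.Agent.Results.MP_1b21e4_co.NotOnlyK
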